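import Mathlib

set_option autoImplicit false

/-!
# Hessian nilpotent self-inverting polynomials outside the isotropic construction

For `n ≥ 5` put `u = z₃ + i z₄`. The cubic curve `q(u) = ((u² - u⁴)/2, i (u² + u⁴)/2, u³)` in `ℂ³` is
isotropic, `⟨q, q⟩ = 0`, but its derivative is not. Let `P = q₀(u) z₀ + q₁(u) z₁ + q₂(u) z₂`. Then
`⟨∇P, ∇P⟩ = 0` and `(Hes P)³ = 0`, but the coefficient vectors of `∇P` do not lie in a totally
isotropic subspace.
-/

namespace Pool.Agent.Results.MP_0f7e3c_al.BeyondIsotropic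

open MvPowerSeries

/-- The ring of formal power series in `z_0, …, z_{n-1}` over `ℂ`. -/
abbrev PS (n : ℕ) : Type := MvPowerSeries (Fin n) ℂ

/-- The Hessian matrix of a power series. -/
noncomputable def Hes {n : ℕ} (P : PS n) : Matrix (Fin n) (Fin n) (PS n) :=
  Matrix.of fun i j => pderiv ℂ i (pderiv ℂ j P)

/-- `P` is Hessian nilpotent. -/
def HN {n : ℕ} (P : PS n) : Prop := IsNilpotent (Hes P)

/-- `Q` is the inversion pair of `P`: `o(Q) ≥ 2`, and the formal maps `z ↦ z - ∇P(z)` and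
`z ↦ z + ∇Q(z)` are inverse to each other. -/
def IsInversionPair {n : ℕ} (P Q : PS n) : Prop :=
  2 ≤ Q.order ∧
  (∀ i, subst (fun j => X j + pderiv ℂ j Q) (X i - pderiv ℂ i P) = (X i : PS n)) ∧
  (∀ i, subst (fun j => X j - pderiv ℂ j P) (X i + pderiv ℂ i Q) = (X i : PS n))

/-- `P` is self-inverting: `o(P) ≥ 2`, the matrix `(Hes P)(0)` is nilpotent, and the inversion pair
of `P` is `P` itself. -/
def IsSelfInverting {n : ℕ} (P : PS n) : Prop :=
  2 ≤ P.order ∧ IsNilpotent ((Hes P).map (constantCoeff (σ := Fin n) (R := ℂ))) ∧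
    IsInversionPair P P

/-- the linear form `h_α(z) = ⟨α, z⟩` -/
noncomputable def linForm {n : ℕ} (α : Fin n → ℂ) : PS n := ∑ i, C (α i) * X i

/-- `𝒜_Ξ`: the completion of the subalgebra of `ℂ[[z]]` generated by the forms `h_α`, `α ∈ Ξ`, that
is, the set of all power series that agree, up to terms of arbitrarily large order, with elements
of this subalgebra. -/
def A {n : ℕ} (Ξ : Set (Fin n → ℂ)) : Set (PS n) :=
  {P | ∀ d : ℕ, ∃ Q ∈ Algebra.adjoin ℂ (linForm '' Ξ), (d : ℕ∞) ≤ (P - Q).order}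

/-- `Ξ` is nonempty and `⟨α, β⟩ = 0` for all `α, β ∈ Ξ`. -/
def IsIsotropic {n : ℕ} (Ξ : Set (Fin n → ℂ)) : Prop :=
  Ξ.Nonempty ∧ ∀ α ∈ Ξ, ∀ β ∈ Ξ, ∑ i, α i * β i = 0

/-! ### Elements of `𝒜_Ξ` -/

section AXi

variable {n : ℕ} {Ξ : Set (Fin n → ℂ)}

lemma pX (i j : Fin n) : pderiv ℂ j (X i : PS n) = if i = j then 1 else 0 := by
  by_cases h : i = j
  · subst h; simp
  · rw [pderiv_X_of_ne h, if_neg h]

lemma pderiv_linForm (α : Fin n → ℂ) (j : Fin n) : pderiv ℂ j (linForm α) = C (α j) := by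
  rw [linForm, map_sum, Finset.sum_eq_single j]
  · rw [Derivation.leibniz, pX, pderiv_C]; simp
  · intro i _ hij
    rw [Derivation.leibniz, pX, pderiv_C, if_neg hij]; simp
  · simp

lemma coeff_mem {Q : PS n} (hQ : Q ∈ Algebra.adjoin ℂ (linForm '' Ξ)) (d : Fin n →₀ ℕ) :
    (fun i => coeff d (pderiv ℂ i Q)) ∈ Submodule.span ℂ Ξ := by
  classical
  induction hQ using Algebra.adjoin_induction generalizing d with
  | mem Q hQ =>
    obtain ⟨α, hα, rfl⟩ := hQ
    have : (fun i => coeff d (pderiv ℂ i (linForm α))) = (if d = 0 then (1 : ℂ) else 0) • α := by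
      funext i
      rw [pderiv_linForm, coeff_C]
      split_ifs <;> simp
    rw [this]
    exact Submodule.smul_mem _ _ (Submodule.subset_span hα)
  | algebraMap r =>
    have : (fun i => coeff d (pderiv ℂ i (algebraMap ℂ (PS n) r))) = 0 := by
      funext i
      rw [Derivation.map_algebraMap, map_zero]; rfl
    rw [this]
    exact Submodule.zero_mem _
  | add Q R _ _ h1 h2 =>
    have : (fun i => coeff d (pderiv ℂ i (Q + R))) =
        (fun i => coeff d (pderiv ℂ i Q)) + (fun i => coeff d (pderiv ℂ i R)) := by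
      funext i
      simp
    rw [this]
    exact Submodule.add_mem _ (h1 d) (h2 d)
  | mul Q R _ _ h1 h2 =>
    have : (fun i => coeff d (pderiv ℂ i (Q * R))) =
        ∑ p ∈ Finset.HasAntidiagonal.antidiagonal d, (coeff p.1 Q • (fun i => coeff p.2 (pderiv ℂ i R)) +
          coeff p.1 R • (fun i => coeff p.2 (pderiv ℂ i Q))) := by
      funext i
      rw [Derivation.leibniz, map_add, smul_eq_mul, smul_eq_mul, coeff_mul, coeff_mul,
        ← Finset.sum_add_distrib, Finset.sum_apply]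
      rfl
    rw [this]
    exact Submodule.sum_mem _ fun p _ => Submodule.add_mem _
      (Submodule.smul_mem _ _ (h2 _)) (Submodule.smul_mem _ _ (h1 _))

lemma span_isotropic (hΞ : IsIsotropic Ξ) {x y : Fin n → ℂ} (hx : x ∈ Submodule.span ℂ Ξ)
    (hy : y ∈ Submodule.span ℂ Ξ) : ∑ i, x i * y i = 0 := by
  induction hx using Submodule.span_induction with
  | mem x hx =>
    induction hy using Submodule.span_induction with
    | mem y hy => exact hΞ.2 x hx y hy
    | zero => simp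
    | add y y' _ _ h1 h2 =>
      simp only [Pi.add_apply, mul_add, Finset.sum_add_distrib, h1, h2, add_zero]
    | smul c y _ h =>
      have : ∀ i, x i * (c • y) i = c * (x i * y i) := fun i => by
        rw [Pi.smul_apply, smul_eq_mul]; ring
      simp only [this, ← Finset.mul_sum, h, mul_zero]
  | zero => simp
  | add x x' _ _ h1 h2 =>
    simp only [Pi.add_apply, add_mul, Finset.sum_add_distrib, h1, h2, add_zero]
  | smul c x _ h =>
    have : ∀ i, (c • x) i * y i = c * (x i * y i) := fun i => by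
      rw [Pi.smul_apply, smul_eq_mul]; ring
    simp only [this, ← Finset.mul_sum, h, mul_zero]

lemma mem_span_of_mem {P : PS n} (hP : P ∈ A Ξ) (d : Fin n →₀ ℕ) :
    (fun i => coeff d (pderiv ℂ i P)) ∈ Submodule.span ℂ Ξ := by
  obtain ⟨Q, hQ, hord⟩ := hP (d.degree + 2)
  have h1 : ∀ i, coeff d (pderiv ℂ i P) = coeff d (pderiv ℂ i Q) := by
    intro i
    have h2 : coeff d (pderiv ℂ i (P - Q)) = 0 := by
      rw [coeff_pderiv, coeff_of_lt_order, zero_mul]
      refine lt_of_lt_of_le ?_ hord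
      rw [map_add, Finsupp.degree_single]
      exact_mod_cast (by omega : d.degree + 1 < d.degree + 2)
    rw [map_sub, map_sub, sub_eq_zero] at h2
    exact h2
  simp only [h1]
  exact coeff_mem hQ d

/-- the Hessian of an element of `𝒜_Ξ` has square zero -/
lemma hes_sq (hΞ : IsIsotropic Ξ) {P : PS n} (hP : P ∈ A Ξ) : Hes P * Hes P = 0 := by
  classical
  refine Matrix.ext fun j k => ?_
  rw [Matrix.mul_apply, Matrix.zero_apply]
  have h0 : ∀ i, Hes P j i * Hes P i k =
      pderiv ℂ j (pderiv ℂ i P) * pderiv ℂ k (pderiv ℂ i P) := by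
    intro i
    have : pderiv ℂ i (pderiv ℂ k P) = pderiv ℂ k (pderiv ℂ i P) := by
      ext d
      rw [coeff_pderiv, coeff_pderiv, coeff_pderiv, coeff_pderiv, add_right_comm]
      rcases eq_or_ne i k with rfl | hik
      · rfl
      · simp only [Finsupp.add_apply, Finsupp.single_eq_of_ne hik,
          Finsupp.single_eq_of_ne (Ne.symm hik), add_zero]
        ring
    rw [Hes, Matrix.of_apply, Matrix.of_apply, this]
  simp only [h0]
  ext d
  rw [map_sum, map_zero]
  simp only [coeff_mul]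
  rw [Finset.sum_comm]
  refine Finset.sum_eq_zero fun p _ => ?_
  have h1 : ∀ (l : Fin n) (c : Fin n →₀ ℕ),
      (fun i => coeff c (pderiv ℂ l (pderiv ℂ i P))) ∈ Submodule.span ℂ Ξ := by
    intro l c
    have : (fun i => coeff c (pderiv ℂ l (pderiv ℂ i P))) =
        ((c l : ℂ) + 1) • fun i => coeff (c + Finsupp.single l 1) (pderiv ℂ i P) := by
      funext i
      rw [coeff_pderiv, Pi.smul_apply, smul_eq_mul, mul_comm]
    rw [this]
    exact Submodule.smul_mem _ _ (mem_span_of_mem hP _)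
  exact span_isotropic hΞ (h1 j p.1) (h1 k p.2)

end AXi

/-! ### The example -/

section Example

variable {n : ℕ} (h5 : 5 ≤ n)

/-- the first five indices -/
def ix (k : Fin 5) : Fin n := Fin.castLE h5 k

lemma ix_inj (k l : Fin 5) : ix h5 k = ix h5 l ↔ k = l := by simp [ix]

/-- the example as a polynomial -/
noncomputable def P : MvPolynomial (Fin n) ℂ :=
  let u : MvPolynomial (Fin n) ℂ :=
    MvPolynomial.X (ix h5 3) + MvPolynomial.C Complex.I * MvPolynomial.X (ix h5 4)
  MvPolynomial.C (1 / 2) * (u ^ 2 - u ^ 4) * MvPolynomial.X (ix h5 0) +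
  MvPolynomial.C (Complex.I / 2) * (u ^ 2 + u ^ 4) * MvPolynomial.X (ix h5 1) +
  u ^ 3 * MvPolynomial.X (ix h5 2)

/-- `u = z₃ + i z₄` -/
noncomputable def u : PS n := X (ix h5 3) + C Complex.I * X (ix h5 4)
/-- the curve -/
noncomputable def q0 : PS n := C (1 / 2) * (u h5 ^ 2 - u h5 ^ 4)
/-- the curve -/
noncomputable def q1 : PS n := C (Complex.I / 2) * (u h5 ^ 2 + u h5 ^ 4)
/-- the curve -/
noncomputable def q2 : PS n := u h5 ^ 3
/-- its derivative -/
noncomputable def r0 : PS n := u h5 - 2 * u h5 ^ 3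
/-- its derivative -/
noncomputable def r1 : PS n := C Complex.I * (u h5 + 2 * u h5 ^ 3)
/-- its derivative -/
noncomputable def r2 : PS n := 3 * u h5 ^ 2
/-- the derivative of `P` with respect to `u` -/
noncomputable def Pu : PS n := r0 h5 * X (ix h5 0) + r1 h5 * X (ix h5 1) + r2 h5 * X (ix h5 2)
/-- the second derivative of `P` with respect to `u` -/
noncomputable def Puu : PS n := (1 - 6 * u h5 ^ 2) * X (ix h5 0) +
  C Complex.I * (1 + 6 * u h5 ^ 2) * X (ix h5 1) + 6 * u h5 * X (ix h5 2)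

/-- the vector with entries `x0, x1, x2, x3, x4` at the first five places -/
noncomputable def vec (x : Fin 5 → PS n) (j : Fin n) : PS n := ∑ k, if ix h5 k = j then x k else 0

lemma vec_ix (x : Fin 5 → PS n) (k : Fin 5) : vec h5 x (ix h5 k) = x k := by
  simp [vec, ix_inj]

lemma sum_vec (x : Fin 5 → PS n) (f : Fin n → PS n) :
    ∑ j, vec h5 x j * f j = ∑ k, x k * f (ix h5 k) := by
  simp only [vec, Finset.sum_mul]
  rw [Finset.sum_comm]
  simp

lemma coe_sub' (p q : MvPolynomial (Fin n) ℂ) : ((p - q : MvPolynomial (Fin n) ℂ) : PS n) =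
    (p : PS n) - (q : PS n) :=
  (MvPolynomial.coeToMvPowerSeries.ringHom (σ := Fin n) (R := ℂ)).map_sub p q

lemma coe_P : ((P h5 : MvPolynomial (Fin n) ℂ) : PS n) =
    q0 h5 * X (ix h5 0) + q1 h5 * X (ix h5 1) + q2 h5 * X (ix h5 2) := by
  simp only [P, q0, q1, q2, u]
  push_cast
  rw [coe_sub']
  push_cast
  rfl

lemma CI_sq : (C Complex.I : PS n) * C Complex.I = -1 := by
  rw [← map_mul, Complex.I_mul_I, map_neg, map_one]

lemma C_half : (C (1 / 2) : PS n) * 2 = 1 := by
  have : (2 : PS n) = C 2 := (map_ofNat C 2).symm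
  rw [this, ← map_mul, one_div, inv_mul_cancel₀ two_ne_zero, map_one]

lemma C_I_half : (C (Complex.I / 2) : PS n) = C Complex.I * C (1 / 2) := by
  rw [← map_mul]; congr 1; ring

/-- the gradient of `u` -/
noncomputable def e : Fin n → PS n := vec h5 ![0, 0, 0, 1, C Complex.I]

lemma pderiv_sum_ix (k : Fin 5) (j : Fin n) :
    pderiv ℂ j (X (ix h5 k) : PS n) = vec h5 (Pi.single k 1) j := by
  rw [pX, vec]
  rw [Finset.sum_eq_single k]
  · simp
  · intro l _ hl
    rw [Pi.single_eq_of_ne hl]; simp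
  · simp

lemma p_u (j : Fin n) : pderiv ℂ j (u h5) = e h5 j := by
  simp only [u, map_add, Derivation.leibniz, pX, pderiv_C, smul_eq_mul, mul_zero, add_zero, e, vec,
    Fin.sum_univ_five, Matrix.cons_val]
  simp

lemma vec_add (x y : Fin 5 → PS n) (j : Fin n) : vec h5 (x + y) j = vec h5 x j + vec h5 y j := by
  simp only [vec, Pi.add_apply, ← Finset.sum_add_distrib]
  refine Finset.sum_congr rfl fun k _ => ?_
  split_ifs <;> simp

lemma vec_smul (c : PS n) (x : Fin 5 → PS n) (j : Fin n) :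
    vec h5 (fun k => c * x k) j = c * vec h5 x j := by
  simp only [vec, Finset.mul_sum]
  refine Finset.sum_congr rfl fun k _ => ?_
  split_ifs <;> simp

lemma p_two (j : Fin n) : pderiv ℂ j (2 : PS n) = 0 := by
  have := (pderiv ℂ j : Derivation ℂ (PS n) (PS n)).map_natCast 2
  exact_mod_cast this

lemma p_three (j : Fin n) : pderiv ℂ j (3 : PS n) = 0 := by
  have := (pderiv ℂ j : Derivation ℂ (PS n) (PS n)).map_natCast 3
  exact_mod_cast this

lemma p_q0 (j : Fin n) : pderiv ℂ j (q0 h5) = r0 h5 * e h5 j := by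
  simp only [q0, r0, Derivation.leibniz, map_sub, pderiv_pow, p_u, pderiv_C, smul_eq_mul, mul_zero,
    add_zero]
  push_cast
  norm_num
  linear_combination (u h5 - 2 * u h5 ^ 3) * e h5 j * C_half (n := n)

lemma p_q1 (j : Fin n) : pderiv ℂ j (q1 h5) = r1 h5 * e h5 j := by
  simp only [q1, r1, Derivation.leibniz, map_add, pderiv_pow, p_u, pderiv_C, smul_eq_mul, mul_zero,
    add_zero, C_I_half]
  push_cast
  norm_num
  linear_combination C Complex.I * (u h5 + 2 * u h5 ^ 3) * e h5 j * C_half (n := n)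

lemma p_q2 (j : Fin n) : pderiv ℂ j (q2 h5) = r2 h5 * e h5 j := by
  simp only [q2, r2, pderiv_pow, p_u]
  push_cast
  norm_num

lemma p_r0 (j : Fin n) : pderiv ℂ j (r0 h5) = (1 - 6 * u h5 ^ 2) * e h5 j := by
  simp only [r0, Derivation.leibniz, map_sub, pderiv_pow, p_u, p_two, smul_eq_mul, mul_zero,
    add_zero]
  push_cast
  norm_num
  ring

lemma p_r1 (j : Fin n) : pderiv ℂ j (r1 h5) = C Complex.I * (1 + 6 * u h5 ^ 2) * e h5 j := by
  simp only [r1, Derivation.leibniz, map_add, pderiv_pow, p_u, p_two, pderiv_C, smul_eq_mul,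
    mul_zero, add_zero]
  push_cast
  norm_num
  ring

lemma p_r2 (j : Fin n) : pderiv ℂ j (r2 h5) = 6 * u h5 * e h5 j := by
  simp only [r2, Derivation.leibniz, pderiv_pow, p_u, p_three, smul_eq_mul,
    mul_zero, add_zero]
  push_cast
  norm_num
  ring

/-- the first three entries of the Hessian direction -/
noncomputable def a : Fin n → PS n := vec h5 ![r0 h5, r1 h5, r2 h5, 0, 0]

/-- the gradient of `P` -/
noncomputable def g : Fin n → PS n := vec h5 ![q0 h5, q1 h5, q2 h5, Pu h5, C Complex.I * Pu h5]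

lemma p_P (j : Fin n) : pderiv ℂ j ((P h5 : MvPolynomial (Fin n) ℂ) : PS n) = g h5 j := by
  rw [coe_P]
  simp only [map_add, Derivation.leibniz, p_q0, p_q1, p_q2, pX, smul_eq_mul, g, vec, Pu,
    Fin.sum_univ_five, Matrix.cons_val, e]
  split_ifs <;> ring

lemma p_g (i j : Fin n) : pderiv ℂ i (g h5 j) =
    a h5 j * e h5 i + (a h5 i + Puu h5 * e h5 i) * e h5 j := by
  have hPu : pderiv ℂ i (Pu h5) = a h5 i + Puu h5 * e h5 i := by
    simp only [Pu, Puu, a, vec, map_add, Derivation.leibniz, p_r0, p_r1, p_r2, pX, smul_eq_mul,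
      Fin.sum_univ_five, Matrix.cons_val, e]
    split_ifs <;> ring
  have h1 : g h5 j = (if ix h5 0 = j then q0 h5 else 0) + (if ix h5 1 = j then q1 h5 else 0) +
      (if ix h5 2 = j then q2 h5 else 0) + Pu h5 * e h5 j := by
    simp only [g, vec, Fin.sum_univ_five, Matrix.cons_val, e]
    split_ifs <;> ring
  have he : pderiv ℂ i (e h5 j) = 0 := by
    simp only [e, vec, Fin.sum_univ_five, Matrix.cons_val]
    split_ifs <;> simp
  rw [h1]
  simp only [map_add, Derivation.leibniz, he, hPu, smul_eq_mul, mul_zero, zero_add]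
  have h2 : a h5 j * e h5 i = pderiv ℂ i (if ix h5 0 = j then q0 h5 else 0) +
      pderiv ℂ i (if ix h5 1 = j then q1 h5 else 0) +
      pderiv ℂ i (if ix h5 2 = j then q2 h5 else 0) := by
    have h3 : ∀ (c : Prop) [Decidable c] (f : PS n), pderiv ℂ i (if c then f else 0) =
        if c then pderiv ℂ i f else 0 := by
      intro c _ f
      split_ifs <;> simp
    simp only [h3, p_q0, p_q1, p_q2, a]
    rw [vec]
    simp only [Fin.sum_univ_five, Matrix.cons_val]
    split_ifs <;> ring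
  rw [h2]
  ring

lemma e_e : ∑ j, e h5 j * e h5 j = 0 := by
  conv_lhs => rw [e]
  rw [sum_vec]
  simp only [vec_ix, Fin.sum_univ_five, Matrix.cons_val]
  linear_combination CI_sq (n := n)

lemma a_e : ∑ j, a h5 j * e h5 j = 0 := by
  conv_lhs => rw [a, e]
  rw [sum_vec]
  simp only [vec_ix, Fin.sum_univ_five, Matrix.cons_val]
  ring

lemma a_a : ∑ j, a h5 j * a h5 j = u h5 ^ 4 := by
  conv_lhs => rw [a]
  rw [sum_vec]
  simp only [vec_ix, Fin.sum_univ_five, Matrix.cons_val, r0, r1, r2]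
  linear_combination (u h5 + 2 * u h5 ^ 3) ^ 2 * CI_sq (n := n)

lemma Hes_P (i j : Fin n) : Hes ((P h5 : MvPolynomial (Fin n) ℂ) : PS n) i j =
    e h5 i * a h5 j + a h5 i * e h5 j + Puu h5 * e h5 i * e h5 j := by
  rw [Hes, Matrix.of_apply, p_P, p_g]
  ring

lemma Hes_sq (i k : Fin n) : (Hes ((P h5 : MvPolynomial (Fin n) ℂ) : PS n) *
    Hes ((P h5 : MvPolynomial (Fin n) ℂ) : PS n)) i k = u h5 ^ 4 * e h5 i * e h5 k := by
  rw [Matrix.mul_apply]
  have : ∀ j, Hes ((P h5 : MvPolynomial (Fin n) ℂ) : PS n) i j *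
      Hes ((P h5 : MvPolynomial (Fin n) ℂ) : PS n) j k =
      (a h5 j * a h5 j) * (e h5 i * e h5 k) +
      (a h5 j * e h5 j) * (e h5 i * a h5 k + a h5 i * e h5 k + 2 * Puu h5 * e h5 i * e h5 k) +
      (e h5 j * e h5 j) * (a h5 i * a h5 k + Puu h5 * (a h5 i * e h5 k + e h5 i * a h5 k) +
        Puu h5 ^ 2 * e h5 i * e h5 k) := by
    intro j
    rw [Hes_P, Hes_P]
    ring
  simp only [this, Finset.sum_add_distrib, ← Finset.sum_mul, a_a, a_e, e_e]
  ring

lemma HN_P : HN ((P h5 : MvPolynomial (Fin n) ℂ) : PS n) := by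
  refine ⟨3, ?_⟩
  rw [pow_succ, pow_two]
  refine Matrix.ext fun i k => ?_
  rw [Matrix.mul_apply, Matrix.zero_apply]
  have : ∀ j, (Hes ((P h5 : MvPolynomial (Fin n) ℂ) : PS n) *
      Hes ((P h5 : MvPolynomial (Fin n) ℂ) : PS n)) i j *
      Hes ((P h5 : MvPolynomial (Fin n) ℂ) : PS n) j k =
      (a h5 j * e h5 j) * (u h5 ^ 4 * e h5 i * e h5 k) +
      (e h5 j * e h5 j) * (u h5 ^ 4 * e h5 i * (a h5 k + Puu h5 * e h5 k)) := by
    intro j
    rw [Hes_sq, Hes_P]
    ring
  simp only [this, Finset.sum_add_distrib, ← Finset.sum_mul, a_e, e_e]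
  ring

lemma u_ne : u h5 ≠ 0 := by
  intro h
  have h1 := congrArg (fun f => constantCoeff (pderiv ℂ (ix h5 3) f)) h
  simp only [p_u, map_zero] at h1
  rw [e, vec_ix] at h1
  simp at h1

lemma not_mem (Ξ : Set (Fin n → ℂ)) (hΞ : IsIsotropic Ξ) :
    ((P h5 : MvPolynomial (Fin n) ℂ) : PS n) ∉ A Ξ := by
  intro h
  have h1 := hes_sq hΞ h
  have h2 := Hes_sq h5 (ix h5 3) (ix h5 3)
  rw [h1, Matrix.zero_apply, e, vec_ix] at h2
  simp only [Matrix.cons_val, mul_one] at h2
  exact pow_ne_zero 4 (u_ne h5) h2.symm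

lemma order_P : (3 : ℕ∞) ≤ ((P h5 : MvPolynomial (Fin n) ℂ) : PS n).order := by
  have hu : constantCoeff (u h5) = 0 := by simp [u]
  have h1 : ((P h5 : MvPolynomial (Fin n) ℂ) : PS n) = u h5 ^ 2 *
      (C (1 / 2) * (1 - u h5 ^ 2) * X (ix h5 0) + C (Complex.I / 2) * (1 + u h5 ^ 2) * X (ix h5 1)
        + u h5 * X (ix h5 2)) := by
    rw [coe_P, q0, q1, q2]
    ring
  rw [h1]
  refine le_trans ?_ le_order_mul
  have h2 : ((2 : ℕ) : ℕ∞) ≤ (u h5 ^ 2).order := le_order_pow_of_constantCoeff_eq_zero _ hu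
  have h3 : (1 : ℕ∞) ≤ (C (1 / 2) * (1 - u h5 ^ 2) * X (ix h5 0) +
      C (Complex.I / 2) * (1 + u h5 ^ 2) * X (ix h5 1) + u h5 * X (ix h5 2) : PS n).order := by
    rw [one_le_order_iff_constCoeff_eq_zero]
    simp
  calc (3 : ℕ∞) = ((2 : ℕ) : ℕ∞) + 1 := rfl
    _ ≤ _ := add_le_add h2 h3

/-- substitutions along multiples of the gradient of `P` fix this gradient -/
lemma subst_fix (c : ℂ) (φ : PS n →ₐ[ℂ] PS n) (hφ : ∀ j, φ (X j) = X j + C c * g h5 j)
    (j : Fin n) : φ (g h5 j) = g h5 j := by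
  have hC : ∀ z : ℂ, φ (C z) = C z := fun z => φ.commutes z
  have hg : ∀ k, g h5 (ix h5 k) =
      (![q0 h5, q1 h5, q2 h5, Pu h5, C Complex.I * Pu h5] : Fin 5 → PS n) k :=
    fun k => vec_ix h5 _ k
  have hu : φ (u h5) = u h5 := by
    conv_lhs => rw [u]
    rw [map_add, map_mul, hC, hφ, hφ, hg, hg, u]
    simp only [Matrix.cons_val]
    linear_combination C c * Pu h5 * CI_sq (n := n)
  have hq0 : φ (q0 h5) = q0 h5 := by
    rw [q0, map_mul, map_sub, map_pow, map_pow, hu, hC]
  have hq1 : φ (q1 h5) = q1 h5 := by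
    rw [q1, map_mul, map_add, map_pow, map_pow, hu, hC]
  have hq2 : φ (q2 h5) = q2 h5 := by
    rw [q2, map_pow, hu]
  have hr0 : φ (r0 h5) = r0 h5 := by
    rw [r0, map_sub, map_mul, map_pow, hu, map_ofNat]
  have hr1 : φ (r1 h5) = r1 h5 := by
    rw [r1, map_mul, map_add, map_mul, map_pow, hu, hC, map_ofNat]
  have hr2 : φ (r2 h5) = r2 h5 := by
    rw [r2, map_mul, map_pow, hu, map_ofNat]
  have hPu : φ (Pu h5) = Pu h5 := by
    rw [Pu, map_add, map_add, map_mul, map_mul, map_mul, hr0, hr1, hr2, hφ, hφ, hφ, hg, hg, hg]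
    simp only [Matrix.cons_val, q0, q1, q2, r0, r1, r2, C_I_half]
    linear_combination (C (1 / 2) * C c * (u h5 + 2 * u h5 ^ 3) * (u h5 ^ 2 + u h5 ^ 4)) *
      CI_sq (n := n) - 3 * C c * u h5 ^ 5 * C_half (n := n)
  simp only [g, vec, Fin.sum_univ_five, Matrix.cons_val]
  simp only [map_add]
  have h3 : ∀ (c : Prop) [Decidable c] (f : PS n), φ (if c then f else 0) =
      if c then φ f else 0 := by
    intro c _ f
    split_ifs <;> simp
  simp only [h3, hq0, hq1, hq2, hPu, map_mul, hC]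

lemma selfInverting_P : IsSelfInverting ((P h5 : MvPolynomial (Fin n) ℂ) : PS n) := by
  have hord := order_P h5
  have h2 : (2 : ℕ∞) ≤ ((P h5 : MvPolynomial (Fin n) ℂ) : PS n).order :=
    le_trans (by exact_mod_cast (by omega : 2 ≤ 3)) hord
  have hT : ∀ j, constantCoeff (g h5 j) = 0 := by
    intro j
    rw [← p_P, ← coeff_zero_eq_constantCoeff_apply, coeff_pderiv, coeff_of_lt_order, zero_mul]
    refine lt_of_lt_of_le ?_ hord
    simp only [zero_add, Finsupp.degree_single]
    exact_mod_cast (by omega : 1 < 3)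
  refine ⟨h2, ?_, h2, ?_, ?_⟩
  · have : (Hes ((P h5 : MvPolynomial (Fin n) ℂ) : PS n)).map
        (constantCoeff (σ := Fin n) (R := ℂ)) = 0 := by
      refine Matrix.ext fun i j => ?_
      rw [Matrix.map_apply, Hes, Matrix.of_apply, ← coeff_zero_eq_constantCoeff_apply,
        coeff_pderiv, coeff_pderiv, coeff_of_lt_order, zero_mul, zero_mul, Matrix.zero_apply]
      refine lt_of_lt_of_le ?_ hord
      simp only [zero_add, map_add, Finsupp.degree_single]
      exact_mod_cast (by omega : 1 + 1 < 3)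
    rw [this]
    exact IsNilpotent.zero
  · intro i
    have hs : HasSubst fun j => (X j : PS n) +
        pderiv ℂ j ((P h5 : MvPolynomial (Fin n) ℂ) : PS n) := by
      apply hasSubst_of_constantCoeff_zero
      intro j
      rw [map_add, constantCoeff_X, p_P, hT, zero_add]
    have h1 := subst_fix h5 1 (substAlgHom (R := ℂ) hs)
      (fun j => by rw [substAlgHom_X, p_P, map_one, one_mul])
    rw [← substAlgHom_apply hs, map_sub, substAlgHom_X, p_P, h1]
    ring
  · intro i
    have hs : HasSubst fun j => (X j : PS n) -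
        pderiv ℂ j ((P h5 : MvPolynomial (Fin n) ℂ) : PS n) := by
      apply hasSubst_of_constantCoeff_zero
      intro j
      rw [map_sub, constantCoeff_X, p_P, hT, zero_sub, neg_zero]
    have h1 := subst_fix h5 (-1) (substAlgHom (R := ℂ) hs)
      (fun j => by rw [substAlgHom_X, p_P, map_neg, map_one]; ring)
    rw [← substAlgHom_apply hs, map_add, substAlgHom_X, p_P, h1]
    ring

end Example

/-- For every `n ≥ 5` there is a polynomial in `n` variables that is Hessian nilpotent and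
self-inverting but lies in none of the algebras `𝒜_Ξ`. -/
theorem result (n : ℕ) (h5 : 5 ≤ n) : ∃ P : MvPolynomial (Fin n) ℂ,
    HN (P : PS n) ∧ IsSelfInverting (P : PS n) ∧
    ∀ Ξ : Set (Fin n → ℂ), IsIsotropic Ξ → (P : PS n) ∉ A Ξ :=
  ⟨P h5, HN_P h5, selfInverting_P h5, not_mem h5⟩

end Pool.Agent.Results.MP_0f7e3c_al.BeyondIsotropic
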